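import Pool.Agent.H466.HP.Stm

/-!
# HP QM: weak type bound for the weighted sum `Q` over the zeros
-/

set_option autoImplicit false

namespace Pool.Agent.H627.HP

open Complex MeasureTheory Set Filter Topology
open Pool.Agent.H862.VK (Yz Yz_diff Yz_ne Yz_neg)
open Pool.Agent.H466.HP

lemma mu_nonneg (b : ℂ) : 0 ≤ mu b := Nat.cast_nonneg _

lemma mu_pos {b : ℂ} (hb : Yz b = 0) : 0 < mu b := by
  have hA : AnalyticOnNhd ℂ Yz univ := fun z _ => Yz_diff.analyticAt z
  have h1 : analyticOrderAt Yz b ≠ ⊤ := by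
    intro h
    rw [analyticOrderAt_eq_top] at h
    have h2 := hA.eqOn_zero_of_preconnected_of_eventuallyEq_zero isPreconnected_univ
      (mem_univ b) h
    have h3 : Yz 1 = 0 := h2 (mem_univ 1)
    exact Yz_ne (by norm_num) h3
  have h2 : analyticOrderAt Yz b ≠ 0 := (Yz_diff.analyticAt b).analyticOrderAt_ne_zero.2 hb
  have h3 : analyticOrderNatAt Yz b ≠ 0 := by
    intro h
    apply h2
    rw [← Nat.cast_analyticOrderNatAt h1, h]
    rfl
  rw [mu]
  exact_mod_cast Nat.pos_of_ne_zero h3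

lemma abs_re_lt {b : ℂ} (hb : Yz b = 0) : |b.re| < 1 / 2 := by
  rw [abs_lt]
  constructor
  · by_contra h
    refine Yz_ne (z := -b) ?_ ?_
    · rw [neg_re]
      linarith [not_lt.1 h]
    · rw [Yz_neg, hb]
  · by_contra h
    exact Yz_ne (not_lt.1 h) hb

/-- sums over finite sets of zeros -/
lemma sum_sub {f : ℂ → ℝ} {A : ℝ} (h : ∀ B : Finset ℂ, (∀ b ∈ B, Yz b = 0) → ∑ b ∈ B, f b ≤ A)
    (s : Finset Zr) : ∑ b ∈ s, f b ≤ A := by
  have h1 := h (s.map (Function.Embedding.subtype _)) (fun b hb => by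
    obtain ⟨c, -, rfl⟩ := Finset.mem_map.1 hb
    exact c.2)
  rw [Finset.sum_map] at h1
  exact h1

lemma countable_Zr (h : S_Z1) : Countable Zr := by
  obtain ⟨C, hC, h⟩ := h
  have hs : Summable (fun b : Zr => mu b / (1 + (0 - (b : ℂ).im) ^ 2)) := by
    refine summable_of_sum_le (c := C * Real.log (2 + |0|)) (fun b => ?_) (fun s => ?_)
    · exact div_nonneg (mu_nonneg _) (by positivity)
    · exact sum_sub (f := fun b => mu b / (1 + (0 - b.im) ^ 2)) (h 0) s
  have h1 := hs.countable_support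
  rw [← Set.countable_univ_iff]
  apply h1.mono
  intro b _
  rw [Function.mem_support]
  exact (div_pos (mu_pos b.2) (by positivity)).ne'

/-- the term of `Q` -/
noncomputable def q (U x t : ℝ) (b : ℂ) : ℝ :=
  mu b * Real.exp (U * |b.re|) * Real.exp (-(b.im - t) ^ 2 / 2) / (x + |b.im - t|) ^ 2

lemma q_nonneg (U x t : ℝ) (b : ℂ) : 0 ≤ q U x t b := by
  unfold q
  have := mu_nonneg b
  positivity

lemma q_meas (U x : ℝ) (b : ℂ) : Measurable (fun t => q U x t b) := by
  unfold q
  fun_prop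

lemma Q_le (U x t : ℝ) : ENNReal.ofReal (Q U x t) ≤ ∑' b : Zr, ENNReal.ofReal (q U x t b) := by
  by_cases hs : Summable (fun b : Zr => q U x t b)
  · have e : Q U x t = ∑' b : Zr, q U x t b := rfl
    rw [e, ENNReal.ofReal_tsum_of_nonneg (fun b => q_nonneg _ _ _ _) hs]
  · have e : Q U x t = ∑' b : Zr, q U x t b := rfl
    rw [e, tsum_eq_zero_of_not_summable hs, ENNReal.ofReal_zero]
    exact zero_le

/-- the integral of one term, close zeros -/
lemma int_near {U x T : ℝ} (hx : 0 < x) (b : ℂ) :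
    ∫⁻ t in Icc T (2 * T), ENNReal.ofReal (q U x t b) ≤
      ENNReal.ofReal (Real.pi / x * (mu b * Real.exp (U * |b.re|))) := by
  have hint : Integrable (fun t : ℝ => (1 + ((t - b.im) / x) ^ 2)⁻¹) :=
    (integrable_inv_one_add_sq.comp_div hx.ne').comp_sub_right b.im
  have hval : ∫ t : ℝ, (1 + ((t - b.im) / x) ^ 2)⁻¹ = x * Real.pi := by
    have h1 := integral_sub_right_eq_self (μ := volume) (fun t : ℝ => (1 + (t / x) ^ 2)⁻¹) b.im
    have h2 := Measure.integral_comp_div (fun t : ℝ => (1 + t ^ 2)⁻¹) x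
    rw [h1, h2, integral_univ_inv_one_add_sq, abs_of_pos hx, smul_eq_mul]
  have hm := mu_nonneg b
  set c : ℝ := mu b * Real.exp (U * |b.re|) with hc
  have hc0 : 0 ≤ c := by positivity
  calc ∫⁻ t in Icc T (2 * T), ENNReal.ofReal (q U x t b)
      ≤ ∫⁻ t, ENNReal.ofReal (q U x t b) := setLIntegral_le_lintegral _ _
    _ ≤ ∫⁻ t, ENNReal.ofReal (c / x ^ 2 * (1 + ((t - b.im) / x) ^ 2)⁻¹) := by
        apply lintegral_mono
        intro t
        apply ENNReal.ofReal_le_ofReal
        unfold q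
        rw [← hc]
        have e1 : Real.exp (-(b.im - t) ^ 2 / 2) ≤ 1 := by
          rw [Real.exp_le_one_iff]
          have := sq_nonneg (b.im - t)
          linarith
        have e2 : x ^ 2 * (1 + ((t - b.im) / x) ^ 2) ≤ (x + |b.im - t|) ^ 2 := by
          have e3 : x ^ 2 * (1 + ((t - b.im) / x) ^ 2) = x ^ 2 + (b.im - t) ^ 2 := by
            field_simp
            ring
          rw [e3, ← sq_abs (b.im - t)]
          have := abs_nonneg (b.im - t)
          nlinarith
        have e4 : c / x ^ 2 * (1 + ((t - b.im) / x) ^ 2)⁻¹ =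
            c / (x ^ 2 * (1 + ((t - b.im) / x) ^ 2)) := by
          rw [← div_eq_mul_inv, div_div]
        rw [e4]
        apply div_le_div₀ hc0 _ (by positivity) e2
        calc c * Real.exp (-(b.im - t) ^ 2 / 2) ≤ c * 1 := mul_le_mul_of_nonneg_left e1 hc0
          _ = c := mul_one c
    _ = ENNReal.ofReal (∫ t, c / x ^ 2 * (1 + ((t - b.im) / x) ^ 2)⁻¹) := by
        rw [ofReal_integral_eq_lintegral_ofReal (hint.const_mul _)]
        exact Filter.Eventually.of_forall fun t => by positivity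
    _ = ENNReal.ofReal (Real.pi / x * c) := by
        rw [integral_const_mul, hval]
        congr 1
        field_simp

/-- the integral of one term, distant zeros -/
lemma int_far {x T : ℝ} (hT : 10 ≤ T) (hx : 0 < x) {b : ℂ} (hb : Yz b = 0)
    (hf : |b.im| < T / 4 ∨ 8 * T < |b.im|) :
    ∫⁻ t in Icc T (2 * T), ENNReal.ofReal (q (Real.log T / 16) x t b) ≤
      ENNReal.ofReal (256 * (mu b / (1 + (0 - b.im) ^ 2))) := by
  have hT0 : 0 < T := by linarith
  have hm := mu_nonneg b
  have hre := abs_re_lt hb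
  have hL : 0 ≤ Real.log T := Real.log_nonneg (by linarith)
  set K : ℝ := 16 * T * Real.exp (-(T ^ 2 / 16)) with hK
  have hK0 : 0 ≤ K := by positivity
  have hKT : K * T ≤ 256 := by
    have h1 : T ^ 2 / 16 * Real.exp (-(T ^ 2 / 16)) ≤ 1 := by
      rw [Real.exp_neg, ← div_eq_mul_inv, div_le_one (Real.exp_pos _)]
      linarith [Real.add_one_le_exp (T ^ 2 / 16)]
    rw [hK]
    nlinarith
  have hpt : ∀ t ∈ Icc T (2 * T), q (Real.log T / 16) x t b ≤ K * (mu b / (1 + (0 - b.im) ^ 2)) := by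
    intro t ht
    have ha : |b.im| / 2 ≤ |b.im - t| ∧ T / 2 ≤ |b.im - t| := by
      rcases hf with h | h
      · have h1 := abs_lt.1 h
        have h2 : |b.im - t| = t - b.im := by
          rw [abs_sub_comm, abs_of_nonneg]
          linarith [ht.1, h1.2]
        rw [h2]
        constructor <;> linarith [ht.1, h1.2]
      · have h3 : |b.im| ≤ |b.im - t| + |t| := by
          have := abs_add_le (b.im - t) t
          rwa [sub_add_cancel] at this
        have h4 : |t| = t := abs_of_nonneg (by linarith [ht.1])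
        rw [h4] at h3
        constructor <;> linarith [ht.2]
    obtain ⟨ha1, ha2⟩ := ha
    have hsq : T ^ 2 / 16 + b.im ^ 2 / 16 ≤ (b.im - t) ^ 2 / 2 := by
      have h1 : (|b.im| / 2) ^ 2 ≤ |b.im - t| ^ 2 := by
        have := abs_nonneg b.im
        gcongr
      have h2 : (T / 2) ^ 2 ≤ |b.im - t| ^ 2 := by gcongr
      rw [sq_abs] at h1 h2
      have h3 : (|b.im| / 2) ^ 2 = b.im ^ 2 / 4 := by rw [div_pow, sq_abs]; norm_num
      rw [h3] at h1
      nlinarith
    have e1 : Real.exp (-(b.im - t) ^ 2 / 2) ≤ Real.exp (-(T ^ 2 / 16)) * (16 / (1 + (0 - b.im) ^ 2)) := by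
      calc Real.exp (-(b.im - t) ^ 2 / 2) ≤ Real.exp (-(T ^ 2 / 16) + -(b.im ^ 2 / 16)) :=
            Real.exp_le_exp.2 (by linarith)
        _ = Real.exp (-(T ^ 2 / 16)) * Real.exp (-(b.im ^ 2 / 16)) := Real.exp_add _ _
        _ ≤ _ := by
            gcongr
            rw [Real.exp_neg, inv_le_comm₀ (Real.exp_pos _) (by positivity), inv_div]
            have h1 := Real.add_one_le_exp (b.im ^ 2 / 16)
            have h2 : (1 + (0 - b.im) ^ 2) / 16 ≤ b.im ^ 2 / 16 + 1 := by ring_nf; linarith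
            linarith
    have e2 : Real.exp (Real.log T / 16 * |b.re|) ≤ T := by
      calc Real.exp (Real.log T / 16 * |b.re|) ≤ Real.exp (Real.log T) := by
            apply Real.exp_le_exp.2
            have := abs_nonneg b.re
            nlinarith
        _ = T := Real.exp_log hT0
    have e3 : 1 ≤ (x + |b.im - t|) ^ 2 := by
      have : 1 ≤ x + |b.im - t| := by linarith
      nlinarith
    calc q (Real.log T / 16) x t b
        ≤ mu b * Real.exp (Real.log T / 16 * |b.re|) * Real.exp (-(b.im - t) ^ 2 / 2) :=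
          div_le_self (by positivity) e3
      _ ≤ mu b * T * (Real.exp (-(T ^ 2 / 16)) * (16 / (1 + (0 - b.im) ^ 2))) := by
          gcongr
      _ = K * (mu b / (1 + (0 - b.im) ^ 2)) := by
          rw [hK]
          ring
  have hw : 0 ≤ mu b / (1 + (0 - b.im) ^ 2) := div_nonneg hm (by positivity)
  calc ∫⁻ t in Icc T (2 * T), ENNReal.ofReal (q (Real.log T / 16) x t b)
      ≤ ∫⁻ t in Icc T (2 * T), ENNReal.ofReal (K * (mu b / (1 + (0 - b.im) ^ 2))) :=
        setLIntegral_mono measurable_const fun t ht => ENNReal.ofReal_le_ofReal (hpt t ht)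
    _ = ENNReal.ofReal (K * (mu b / (1 + (0 - b.im) ^ 2))) * ENNReal.ofReal T := by
        rw [setLIntegral_const, Real.volume_Icc]
        congr 2
        ring
    _ = ENNReal.ofReal (K * T * (mu b / (1 + (0 - b.im) ^ 2))) := by
        rw [← ENNReal.ofReal_mul (by positivity)]
        congr 1
        ring
    _ ≤ _ := ENNReal.ofReal_le_ofReal (mul_le_mul_of_nonneg_right hKT hw)

theorem qm (h1 : S_Z1) (h : S_EXPW) : S_QM := by
  have hcount := countable_Zr h1
  obtain ⟨C1, hC1, hZ⟩ := h1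
  obtain ⟨C, T0, hC, hT0, hE⟩ := h
  refine ⟨Real.pi * C + 256 * C1, T0, by positivity, hT0, fun T hT x Λ hx hx1 hΛ => ?_⟩
  have hT10 : 10 ≤ T := hT0.trans hT
  have hTpos : 0 < T := by linarith
  have hL1 : 1 ≤ Real.log T := by
    rw [Real.le_log_iff_exp_le hTpos]
    have := Real.exp_one_lt_three
    linarith
  set L := Real.log T with hL
  -- bound for one zero
  set g : ℂ → ℝ := fun b => Real.pi / x *
    (if T / 4 ≤ |b.im| ∧ |b.im| ≤ 8 * T then mu b * Real.exp (L / 4 * |b.re|) else 0) +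
    256 * (mu b / (1 + (0 - b.im) ^ 2)) with hg
  have hg0 : ∀ b, 0 ≤ g b := by
    intro b
    have := mu_nonneg b
    rw [hg]
    dsimp only
    split_ifs <;> positivity
  have hone : ∀ b : Zr, ∫⁻ t in Icc T (2 * T), ENNReal.ofReal (q (L / 16) x t b) ≤
      ENNReal.ofReal (g b) := by
    intro b
    have hm := mu_nonneg (b : ℂ)
    have hw : 0 ≤ mu (b : ℂ) / (1 + (0 - (b : ℂ).im) ^ 2) := div_nonneg hm (by positivity)
    by_cases hc : T / 4 ≤ |(b : ℂ).im| ∧ |(b : ℂ).im| ≤ 8 * T
    · refine (int_near hx _).trans (ENNReal.ofReal_le_ofReal ?_)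
      rw [hg]
      dsimp only
      rw [if_pos hc]
      have e1 : Real.exp (L / 16 * |(b : ℂ).re|) ≤ Real.exp (L / 4 * |(b : ℂ).re|) := by
        apply Real.exp_le_exp.2
        have := abs_nonneg (b : ℂ).re
        nlinarith
      have e2 : Real.pi / x * (mu (b : ℂ) * Real.exp (L / 16 * |(b : ℂ).re|)) ≤
          Real.pi / x * (mu (b : ℂ) * Real.exp (L / 4 * |(b : ℂ).re|)) := by
        have := Real.pi_pos
        gcongr
      linarith
    · have hc' : |(b : ℂ).im| < T / 4 ∨ 8 * T < |(b : ℂ).im| := by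
        by_contra h0
        rw [not_or, not_lt, not_lt] at h0
        exact hc h0
      refine (int_far hT10 hx b.2 hc').trans (ENNReal.ofReal_le_ofReal ?_)
      rw [hg]
      dsimp only
      rw [if_neg hc, mul_zero, zero_add]
  -- finite sums
  have hfin : ∀ s : Finset Zr, ∑ b ∈ s, g b ≤ Real.pi / x * (C * T * L) + 256 * (C1 * Real.log (2 + |0|)) := by
    intro s
    have hs1 : ∑ b ∈ s, (if T / 4 ≤ |(b : ℂ).im| ∧ |(b : ℂ).im| ≤ 8 * T then
        mu b * Real.exp (L / 4 * |(b : ℂ).re|) else 0) ≤ C * T * L := by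
      refine sum_sub (f := fun b => if T / 4 ≤ |b.im| ∧ |b.im| ≤ 8 * T then
        mu b * Real.exp (L / 4 * |b.re|) else 0) (fun B hB => ?_) s
      rw [← Finset.sum_filter]
      refine hE T hT _ fun b hb => ?_
      have := Finset.mem_filter.1 hb
      exact ⟨hB b this.1, this.2.1, this.2.2⟩
    have hs2 := sum_sub (f := fun b => mu b / (1 + (0 - b.im) ^ 2)) (hZ 0) s
    rw [hg]
    dsimp only
    rw [Finset.sum_add_distrib, ← Finset.mul_sum, ← Finset.mul_sum]
    have hp : 0 ≤ Real.pi / x := by have := Real.pi_pos; positivity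
    have := mul_le_mul_of_nonneg_left hs1 hp
    linarith
  set A : ℝ := Real.pi / x * (C * T * L) + 256 * (C1 * Real.log (2 + |0|)) with hA
  have htot : ∑' b : Zr, ENNReal.ofReal (g b) ≤ ENNReal.ofReal A := by
    rw [ENNReal.tsum_eq_iSup_sum]
    refine iSup_le fun s => ?_
    rw [← ENNReal.ofReal_sum_of_nonneg (f := fun b : Zr => g b) fun b _ => hg0 b]
    exact ENNReal.ofReal_le_ofReal (hfin s)
  have hA2 : A ≤ (Real.pi * C + 256 * C1) * T * L / x := by
    have hlog2 : Real.log (2 + |0|) ≤ 1 := by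
      rw [abs_zero, add_zero]
      linarith [Real.log_two_lt_d9]
    have h5 : 1 ≤ T * L / x := by
      rw [le_div_iff₀ hx]
      nlinarith
    have h6 : C1 * Real.log (2 + |0|) ≤ C1 * (T * L / x) :=
      mul_le_mul_of_nonneg_left (hlog2.trans h5) hC1.le
    have h7 : (Real.pi * C + 256 * C1) * T * L / x =
        Real.pi / x * (C * T * L) + 256 * (C1 * (T * L / x)) := by
      field_simp
    rw [h7, hA]
    linarith
  -- Tonelli
  set F : ℝ → ENNReal := fun t => ∑' b : Zr, ENNReal.ofReal (q (L / 16) x t b) with hF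
  have hFm : Measurable F := Measurable.ennreal_tsum fun b => (q_meas _ _ _).ennreal_ofReal
  have hFint : ∫⁻ t in Icc T (2 * T), F t ≤ ENNReal.ofReal A := by
    rw [hF, lintegral_tsum fun b => ((q_meas _ _ _).ennreal_ofReal).aemeasurable]
    exact (ENNReal.tsum_le_tsum hone).trans htot
  have hΛ' : ENNReal.ofReal Λ ≠ 0 := by
    rw [Ne, ENNReal.ofReal_eq_zero, not_le]
    exact hΛ
  have hmark := meas_ge_le_lintegral_div (μ := volume.restrict (Icc T (2 * T)))
    hFm.aemeasurable hΛ' ENNReal.ofReal_ne_top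
  have hsub : volume {t : ℝ | t ∈ Icc T (2 * T) ∧ Λ < Q (L / 16) x t} ≤
      (volume.restrict (Icc T (2 * T))) {t | ENNReal.ofReal Λ ≤ F t} := by
    rw [Measure.restrict_apply (measurableSet_le measurable_const hFm)]
    apply measure_mono
    rintro t ⟨ht1, ht2⟩
    exact ⟨(ENNReal.ofReal_le_ofReal ht2.le).trans (Q_le _ _ _), ht1⟩
  calc volume {t : ℝ | t ∈ Icc T (2 * T) ∧ Λ < Q (L / 16) x t}
      ≤ (∫⁻ t in Icc T (2 * T), F t) / ENNReal.ofReal Λ := hsub.trans hmark
    _ ≤ ENNReal.ofReal ((Real.pi * C + 256 * C1) * T * L / x) / ENNReal.ofReal Λ :=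
        ENNReal.div_le_div_right (hFint.trans (ENNReal.ofReal_le_ofReal hA2)) _
    _ = ENNReal.ofReal ((Real.pi * C + 256 * C1) * T * L / (x * Λ)) := by
        rw [← ENNReal.ofReal_div_of_pos hΛ, div_div]

end Pool.Agent.H627.HP
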